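import Mathlib

set_option autoImplicit false

namespace Pool.Agent.Results.MP_aca66f_gt.Michael

open Set Topology Filter TopologicalSpace unitInterval

/-- functionally closed sets -/
def FClosed {X : Type} [TopologicalSpace X] (A : Set X) : Prop :=
  ∃ f : X → I, Continuous f ∧ A = f ⁻¹' {0}

/-- functionally open sets -/
def FOpen {X : Type} [TopologicalSpace X] (A : Set X) : Prop :=
  ∃ f : X → I, Continuous f ∧ A = f ⁻¹' Ioi 0

/-- functionally `F_σ` sets -/
def FFs {X : Type} [TopologicalSpace X] (A : Set X) : Prop :=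
  ∃ B : ℕ → Set X, (∀ n, FClosed (B n)) ∧ A = ⋃ n, B n

/-- functionally `G_δ` sets -/
def FGd {X : Type} [TopologicalSpace X] (A : Set X) : Prop :=
  ∃ B : ℕ → Set X, (∀ n, FOpen (B n)) ∧ A = ⋂ n, B n

/-- 1-embedded subsets -/
def OneEmb {X : Type} [TopologicalSpace X] (E : Set X) : Prop :=
  (∀ A : Set E, FFs A → ∃ B : Set X, FFs B ∧ A = Subtype.val ⁻¹' B) ∧
  (∀ A : Set E, FGd A → ∃ B : Set X, FGd B ∧ A = Subtype.val ⁻¹' B)

abbrev C := ℕ → Bool

@[reducible] def M (Q : Set C) : TopologicalSpace C where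
  IsOpen U := ∀ q ∈ Q, q ∈ U → U ∈ 𝓝 q
  isOpen_univ := fun _ _ _ => univ_mem
  isOpen_inter := fun _ _ h1 h2 q hq h => inter_mem (h1 q hq h.1) (h2 q hq h.2)
  isOpen_sUnion := fun _ h q hq ⟨t, h1, h2⟩ => mem_of_superset (h t h1 q hq h2) (subset_sUnion_of_mem h1)

lemma cid (Q : Set C) : M Q ≤ Pi.topologicalSpace := fun _ h _ _ hq => h.mem_nhds hq

lemma nor (Q : Set C) : @NormalSpace C (M Q) := by
  have g : ∀ F G : Set C, IsOpen[M Q] Gᶜ → Disjoint F G → Disjoint (F ∩ Q) (closure G) :=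
    fun F G hG h => disjoint_left.2 fun q hq h' => by
      obtain ⟨x, h1, h2⟩ := mem_closure_iff_nhds.1 h' _ (hG q hq.2 (disjoint_left.1 h hq.1))
      exact h1 h2
  have g2 : ∀ F G U : Set C, IsOpen[M Q] Gᶜ → Disjoint F G → U ∈ 𝓝ˢ (F ∩ Q) →
      IsOpen[M Q] ((interior U \ closure G) ∪ F) := fun F G U hG h hU q hq h' =>
    mem_of_superset ((isOpen_interior.sdiff isClosed_closure).mem_nhds (h'.elim id fun h2 =>
      ⟨subset_interior_iff_mem_nhdsSet.2 hU ⟨h2, hq⟩, disjoint_left.1 (g F G hG h) ⟨h2, hq⟩⟩))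
      subset_union_left
  refine @NormalSpace.mk C (M Q) fun F G hF hG h => ?_
  have hF := (@isOpen_compl_iff C F (M Q)).2 hF
  have hG := (@isOpen_compl_iff C G (M Q)).2 hG
  obtain ⟨U, hU, V, hV, hd⟩ := Filter.disjoint_iff.1 (CompletelyNormalSpace.completely_normal (X := C)
    (s := F ∩ Q) (t := G ∩ Q)
    (((g G F hF h.symm).symm.mono_left (closure_mono inter_subset_left)))
    ((g F G hG h).mono_right (closure_mono inter_subset_left)))
  refine ⟨_, _, g2 F G U hG h hU, g2 G F V hF h.symm hV, subset_union_right, subset_union_right,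
    disjoint_left.2 ?_⟩
  rintro x (h1 | h1) (h2 | h2)
  · exact disjoint_left.1 hd (interior_subset h1.1) (interior_subset h2.1)
  · exact h1.2 (subset_closure h2)
  · exact h2.2 (subset_closure h1)
  · exact disjoint_left.1 h h1 h2

lemma den (x : C) : {x}ᶜ ∈ residual C := by
  refine residual_of_dense_open isOpen_compl_singleton (interior_eq_empty_iff_dense_compl.1
    (eq_empty_of_forall_notMem fun y hy => ?_))
  obtain ⟨F, t, f1, f2⟩ := isOpen_pi_iff.1 isOpen_interior y hy
  obtain ⟨k, hk⟩ := F.exists_notMem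
  have := interior_subset (f2 (show Function.update y k (!x k) ∈ _ from fun j hj => by
    rw [Function.update_of_ne (by rintro rfl; exact hk hj)]; exact (f1 j hj).2))
  simpa using congrFun this k

theorem result : ∃ (X : Type) (_ : TopologicalSpace X), T1Space X ∧ NormalSpace X ∧
    ∃ E : Set X, FGd E ∧ ¬ OneEmb E := by
  classical
  obtain ⟨Q, q1, q2⟩ := exists_countable_dense C
  obtain ⟨u, rfl⟩ := q1.exists_eq_range q2.nonempty
  refine ⟨C, M (range u), @t1Space_of_injective_of_continuous C C (M _) _ id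
    (fun _ _ h => h) (continuous_id_iff_le.2 (cid _)) _, nor _, (range u)ᶜ, ?_, fun H => ?_⟩
  · refine ⟨fun n => {u n}ᶜ, fun n => ?_, by rw [← compl_iUnion, iUnion_singleton_eq_range]⟩
    let _ := metrizableSpaceMetric C
    refine ⟨fun x => projIcc 0 1 zero_le_one (dist x (u n)),
      continuous_le_dom (cid _) (continuous_projIcc.comp (continuous_id.dist continuous_const)), ?_⟩
    ext x
    simp only [mem_compl_iff, mem_singleton_iff, mem_preimage, mem_Ioi, pos_iff_ne_zero, ne_eq,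
      projIcc_eq_zero, dist_le_zero]
  have key : ∀ A : Set C, ∃ Z : ℕ → Set C, (∀ n, ∃ G ∈ residual C, G ∩ closure (Z n) ⊆ A) ∧
      A ⊆ range u ∪ ⋃ n, Z n := by
    intro A
    obtain ⟨_, ⟨Z, hZ, rfl⟩, h⟩ := H.1 (Subtype.val ⁻¹' A) ⟨fun _ => Subtype.val ⁻¹' A, fun _ =>
      ⟨fun x => if x.1 ∈ A then 0 else 1, by
        let _ := M (range u)
        have : DiscreteTopology ↥(range u)ᶜ := discreteTopology_iff_isOpen_singleton.2 fun x =>
          ⟨{x.1}, fun q hq h => absurd (h ▸ hq) x.2, by ext; simp [Subtype.ext_iff]⟩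
        exact continuous_of_discreteTopology, by ext; simp⟩, (iUnion_const _).symm⟩
    refine ⟨Z, fun n => ?_, fun x hx => or_iff_not_imp_left.2 fun h' =>
      (Set.ext_iff.1 h ⟨x, h'⟩).1 hx⟩
    obtain ⟨f, f1, f2⟩ := hZ n
    refine ⟨{x : C | ContinuousAt f x} ∩ ⋂ k, {u k}ᶜ, inter_mem
      (residual_of_dense_Gδ (IsGδ.setOfPred_continuousAt _) (q2.mono fun q hq => ?_))
      (countable_iInter_mem.2 fun k => den _), fun x hx => ?_⟩
    · exact fun W hW => mem_of_superset ((@IsOpen.preimage _ _ (M _) _ _ f1 _ isOpen_interior) q hq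
        (mem_interior_iff_mem_nhds.2 hW)) (preimage_mono interior_subset)
    · refine (Set.ext_iff.1 h ⟨x, fun ⟨k, hk⟩ => mem_iInter.1 hx.1.2 k hk.symm⟩).2
        (mem_iUnion.2 ⟨n, ?_⟩)
      exact f2.symm.subset (isClosed_singleton.closure_subset
        (hx.1.1.continuousWithinAt.mem_closure hx.2 f2.subset))
  let A : Bool → Set C := fun b => {x | ∀ᶠ n in (hyperfilter ℕ : Filter ℕ), x n = b}
  choose Z z1 z2 using key
  obtain ⟨⟨b, n⟩, x, hx⟩ : ∃ i : Bool × ℕ, (interior (closure ({u i.2} ∪ Z (A i.1) i.2))).Nonempty := by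
    refine nonempty_interior_of_iUnion_of_closed (fun _ => isClosed_closure)
      (eq_univ_of_forall fun x => ?_)
    obtain ⟨b, hb⟩ : ∃ b, x ∈ A b := by
      rcases (hyperfilter ℕ).em (fun n => x n = true) with h | h
      · exact ⟨_, h⟩
      · exact ⟨false, h.mono fun n => by simp⟩
    rcases z2 _ hb with ⟨n, rfl⟩ | h
    · exact mem_iUnion.2 ⟨(b, n), subset_closure (Or.inl rfl)⟩
    · obtain ⟨n, h⟩ := mem_iUnion.1 h
      exact mem_iUnion.2 ⟨(b, n), subset_closure (Or.inr h)⟩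
  obtain ⟨G, g1, g2⟩ := z1 (A b) n
  obtain ⟨F, t, f1, f2⟩ := isOpen_pi_iff.1 isOpen_interior x hx
  let φ : C → C := fun y k => if k ∈ F then y k else !y k
  have φ1 : Function.Involutive φ := fun y => funext fun k => by
    simp only [φ]; split_ifs <;> simp
  have φ2 : Continuous φ := continuous_pi fun k => by
    simp only [φ]; split_ifs
    · exact continuous_apply k
    · exact (continuous_of_discreteTopology (f := fun b => !b)).comp (continuous_apply k)
  let e : C ≃ₜ C := ⟨φ1.toPerm, φ2, φ2⟩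
  have g3 : G ∩ {u n}ᶜ ∈ residual C := inter_mem g1 (den _)
  have g4 : φ ⁻¹' (G ∩ {u n}ᶜ) ∈ residual C := by
    rw [← e.residual_map_eq] at g3
    exact g3
  obtain ⟨y, y1, y2, y3⟩ := (dense_of_mem_residual (inter_mem g3 g4)).inter_open_nonempty _
    (isOpen_set_pi F.finite_toSet fun k hk => (f1 k hk).1) ⟨x, fun k hk => (f1 k hk).2⟩
  have g5 : ∀ y ∈ (F : Set ℕ).pi t, y ∈ G ∩ {u n}ᶜ → y ∈ A b := fun y h1 h2 => by
    have := interior_subset (f2 h1)
    rw [closure_union, closure_singleton] at this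
    exact g2 ⟨h2.1, this.resolve_left h2.2⟩
  have a1 := g5 y y1 y2
  have a2 := g5 (φ y) (fun k hk => by simpa [φ, Finset.mem_coe.1 hk] using y1 k hk) y3
  obtain ⟨k, k1, k2, k3⟩ := (a1.and (a2.and (hyperfilter_le_cofinite F.eventually_cofinite_notMem))).exists
  simp [φ, k3, k1] at k2

end Pool.Agent.Results.MP_aca66f_gt.Michael
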